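import Pool.Agent.W207.PF.SpecA

/-!
# PF-NU: the tent against the conjectured window means
-/

set_option autoImplicit false

namespace Pool.Agent.W395.PF

open Filter Topology Set MeasureTheory W207.PF
open scoped Convolution

lemma tn_cont (lam : ℝ) : Continuous (tn lam) := by
  unfold tn
  fun_prop

lemma tn_nonneg (lam a : ℝ) : 0 ≤ tn lam a := le_max_right _ _

lemma tn_le (lam a : ℝ) : 1 - |a| / lam ≤ tn lam a := le_max_left _ _

lemma tn_le_one {lam : ℝ} (h : 0 < lam) (a : ℝ) : tn lam a ≤ 1 := by
  have : 0 ≤ |a| / lam := by positivity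
  exact max_le (by linarith) zero_le_one

lemma tn_zero {lam : ℝ} (h : 0 < lam) {a : ℝ} (ha : lam ≤ |a|) : tn lam a = 0 := by
  refine max_eq_right ?_
  have : 1 ≤ |a| / lam := by rwa [le_div_iff₀ h, one_mul]
  linarith

lemma tn_supp {lam : ℝ} (h : 0 < lam) : Function.support (tn lam) ⊆ Ioc (-lam) lam := by
  intro a ha
  by_contra hn
  apply ha
  apply tn_zero h
  by_contra hlt
  push Not at hlt
  rw [abs_lt] at hlt
  exact hn ⟨hlt.1, hlt.2.le⟩

lemma tn_compact {lam : ℝ} (h : 0 < lam) : HasCompactSupport (tn lam) := by
  refine HasCompactSupport.of_support_subset_isCompact (isCompact_Icc (a := -lam) (b := lam)) ?_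
  exact (tn_supp h).trans Ioc_subset_Icc_self

lemma tn_integrable {lam : ℝ} (h : 0 < lam) : Integrable (tn lam) :=
  (tn_cont lam).integrable_of_hasCompactSupport (tn_compact h)

lemma tn_int {lam : ℝ} (h : 0 < lam) : ∫ a, tn lam a = lam := by
  rw [← intervalIntegral.integral_eq_integral_of_support_subset (tn_supp h)]
  rw [← intervalIntegral.integral_add_adjacent_intervals (b := 0)
    ((tn_cont lam).intervalIntegrable _ _) ((tn_cont lam).intervalIntegrable _ _)]
  have e1 : ∫ a in (-lam)..0, tn lam a = ∫ a in (-lam)..0, (1 + a / lam) := by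
    refine intervalIntegral.integral_congr fun a ha => ?_
    rw [uIcc_of_le (by linarith)] at ha
    show tn lam a = 1 + a / lam
    unfold tn
    rw [abs_of_nonpos ha.2, neg_div, sub_neg_eq_add]
    refine max_eq_left ?_
    have : -1 ≤ a / lam := by rw [le_div_iff₀ h]; linarith [ha.1]
    linarith
  have e2 : ∫ a in (0 : ℝ)..lam, tn lam a = ∫ a in (0 : ℝ)..lam, (1 - a / lam) := by
    refine intervalIntegral.integral_congr fun a ha => ?_
    rw [uIcc_of_le h.le] at ha
    show tn lam a = 1 - a / lam
    unfold tn
    rw [abs_of_nonneg ha.1]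
    refine max_eq_left ?_
    have : a / lam ≤ 1 := by rw [div_le_one h]; exact ha.2
    linarith
  have f1 : IntervalIntegrable (fun a : ℝ => a / lam) volume (-lam) 0 :=
    (continuous_id.div_const lam).intervalIntegrable _ _
  have f2 : IntervalIntegrable (fun a : ℝ => a / lam) volume 0 lam :=
    (continuous_id.div_const lam).intervalIntegrable _ _
  rw [e1, e2, intervalIntegral.integral_add intervalIntegrable_const f1,
    intervalIntegral.integral_sub intervalIntegrable_const f2,
    intervalIntegral.integral_div, intervalIntegral.integral_div, integral_id, integral_id,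
    intervalIntegral.integral_const, intervalIntegral.integral_const]
  simp only [smul_eq_mul]
  field_simp
  ring

/-- the part of the window under the tent of half-width `1` -/
noncomputable def gg (h a : ℝ) : ℝ := ∫ x in (a - h / 2)..(a + h / 2), tn 1 x

lemma gg_nonneg {h : ℝ} (hh : 0 < h) (a : ℝ) : 0 ≤ gg h a :=
  intervalIntegral.integral_nonneg (by linarith) fun x _ => tn_nonneg 1 x

lemma gg_zero {h : ℝ} (hh : 0 < h) {a : ℝ} (ha : 1 + h / 2 ≤ |a|) : gg h a = 0 := by
  unfold gg
  rw [intervalIntegral.integral_congr (g := fun _ => (0 : ℝ)), intervalIntegral.integral_zero]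
  intro x hx
  rw [uIcc_of_le (by linarith)] at hx
  show tn 1 x = 0
  apply tn_zero one_pos
  have h1 : |a| ≤ |x| + |a - x| := by
    have := abs_add_le x (a - x)
    rwa [add_sub_cancel] at this
  have h2 : |a - x| ≤ h / 2 := by
    rw [abs_le]
    constructor <;> linarith [hx.1, hx.2]
  linarith

lemma gg_conv {h : ℝ} (hh : 0 < h) : gg h =
    ((Ioc (-(h / 2)) (h / 2)).indicator (fun _ => (1 : ℝ))) ⋆[ContinuousLinearMap.lsmul ℝ ℝ] tn 1 := by
  funext a
  unfold convolution gg
  have e1 : ∀ t, (ContinuousLinearMap.lsmul ℝ ℝ)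
      ((Ioc (-(h / 2)) (h / 2)).indicator (fun _ => (1 : ℝ)) t) (tn 1 (a - t)) =
      (Ioc (-(h / 2)) (h / 2)).indicator (fun t => tn 1 (a - t)) t := by
    intro t
    by_cases ht : t ∈ Ioc (-(h / 2)) (h / 2)
    · rw [indicator_of_mem ht, indicator_of_mem ht]
      simp
    · rw [indicator_of_notMem ht, indicator_of_notMem ht]
      simp
  simp only [e1]
  rw [integral_indicator measurableSet_Ioc,
    ← intervalIntegral.integral_of_le (by linarith : -(h / 2) ≤ h / 2),
    intervalIntegral.integral_comp_sub_left (fun x => tn 1 x) a, sub_neg_eq_add]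

lemma ind_integrable (h : ℝ) :
    Integrable ((Ioc (-(h / 2)) (h / 2)).indicator (fun _ => (1 : ℝ))) :=
  (integrable_indicator_iff measurableSet_Ioc).2 (integrableOn_const (by simp))

lemma ind_int {h : ℝ} (hh : 0 < h) :
    ∫ t, (Ioc (-(h / 2)) (h / 2)).indicator (fun _ => (1 : ℝ)) t = h := by
  rw [integral_indicator measurableSet_Ioc,
    ← intervalIntegral.integral_of_le (by linarith : -(h / 2) ≤ h / 2),
    intervalIntegral.integral_const]
  simp

lemma gg_integrable {h : ℝ} (hh : 0 < h) : Integrable (gg h) := by
  rw [gg_conv hh]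
  exact (ind_integrable h).integrable_convolution _ (tn_integrable one_pos)

lemma gg_int {h : ℝ} (hh : 0 < h) : ∫ a, gg h a = h := by
  rw [gg_conv hh, integral_convolution _ (ind_integrable h) (tn_integrable one_pos), ind_int hh,
    tn_int one_pos]
  simp

lemma min_eq (x : ℝ) : min |x| 1 = 1 - tn 1 x := by
  unfold tn
  rw [div_one]
  rcases le_total |x| 1 with h | h
  · rw [min_eq_left h, max_eq_left (by linarith)]
    ring
  · rw [min_eq_right h, max_eq_right (by linarith)]
    ring

lemma nuw_eq (h a : ℝ) : nuw h a = h - gg h a + if |a| < h / 2 then 1 else 0 := by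
  unfold nuw gg
  congr 1
  simp only [min_eq]
  rw [intervalIntegral.integral_sub intervalIntegrable_const
    ((tn_cont 1).intervalIntegrable _ _), intervalIntegral.integral_const]
  simp

lemma gg_cont (h : ℝ) : Continuous (gg h) := by
  have h1 : Continuous fun b => ∫ x in (0 : ℝ)..b, tn 1 x :=
    intervalIntegral.continuous_primitive (fun a b => (tn_cont 1).intervalIntegrable a b) 0
  have h2 : gg h = fun a => (∫ x in (0 : ℝ)..(a + h / 2), tn 1 x) -
      ∫ x in (0 : ℝ)..(a - h / 2), tn 1 x := by
    funext a
    rw [intervalIntegral.integral_interval_sub_left ((tn_cont 1).intervalIntegrable _ _)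
      ((tn_cont 1).intervalIntegrable _ _)]
    rfl
  rw [h2]
  exact (h1.comp (continuous_id.add continuous_const)).sub
    (h1.comp (continuous_id.sub continuous_const))

lemma gg_le {h : ℝ} (hh : 0 < h) (a : ℝ) : gg h a ≤ h := by
  unfold gg
  have h1 := intervalIntegral.integral_mono_on (μ := volume) (a := a - h / 2) (b := a + h / 2)
    (f := tn 1) (g := fun _ => (1 : ℝ)) (by linarith) ((tn_cont 1).intervalIntegrable _ _)
    intervalIntegrable_const (fun x _ => tn_le_one one_pos x)
  rw [intervalIntegral.integral_const] at h1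
  simp only [smul_eq_mul, mul_one] at h1
  linarith

/-- PF-NU -/
theorem t_NU : S_NU := by
  intro h hh
  refine ⟨?_, ?_, ?_⟩
  · have e : nuw h = fun a => h - gg h a + if |a| < h / 2 then 1 else 0 := by
      funext a
      exact nuw_eq h a
    rw [e]
    refine ((continuous_const.sub (gg_cont h)).measurable).add ?_
    exact Measurable.ite (measurableSet_lt continuous_abs.measurable measurable_const)
      measurable_const measurable_const
  · intro a
    rw [nuw_eq]
    have h1 := gg_nonneg hh a
    have h2 := gg_le hh a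
    split_ifs <;> constructor <;> linarith
  · intro lam hl
    have hpt : ∀ a, tn lam a * nuw h a ≤
        h * tn lam a - (1 - (1 + h / 2) / lam) * gg h a +
          (Ioc (-(h / 2)) (h / 2)).indicator (fun _ => (1 : ℝ)) a := by
      intro a
      rw [nuw_eq]
      have h0 := tn_nonneg lam a
      have h1 := tn_le_one hl a
      have h2 : (1 - (1 + h / 2) / lam) * gg h a ≤ tn lam a * gg h a := by
        by_cases ha : 1 + h / 2 ≤ |a|
        · rw [gg_zero hh ha, mul_zero, mul_zero]
        · refine mul_le_mul_of_nonneg_right ?_ (gg_nonneg hh a)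
          refine le_trans ?_ (tn_le lam a)
          have h3 : |a| / lam ≤ (1 + h / 2) / lam :=
            div_le_div_of_nonneg_right (le_of_lt (not_le.1 ha)) hl.le
          linarith
      have h3 : tn lam a * (if |a| < h / 2 then (1 : ℝ) else 0) ≤
          (Ioc (-(h / 2)) (h / 2)).indicator (fun _ => (1 : ℝ)) a := by
        split_ifs with ha
        · rw [abs_lt] at ha
          rw [indicator_of_mem (show a ∈ Ioc (-(h / 2)) (h / 2) from ⟨ha.1, ha.2.le⟩), mul_one]
          exact h1
        · rw [mul_zero]
          exact indicator_nonneg (fun _ _ => zero_le_one) a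
      have e : tn lam a * (h - gg h a + if |a| < h / 2 then (1 : ℝ) else 0) =
          h * tn lam a - tn lam a * gg h a + tn lam a * (if |a| < h / 2 then (1 : ℝ) else 0) := by
        ring
      rw [e]
      linarith
    have i1 : Integrable (fun a => h * tn lam a) := (tn_integrable hl).const_mul h
    have i2 : Integrable (fun a => (1 - (1 + h / 2) / lam) * gg h a) :=
      (gg_integrable hh).const_mul _
    have i3 : Integrable (fun a => h * tn lam a - (1 - (1 + h / 2) / lam) * gg h a) := i1.sub i2
    have i4 : Integrable (fun a => h * tn lam a - (1 - (1 + h / 2) / lam) * gg h a +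
          (Ioc (-(h / 2)) (h / 2)).indicator (fun _ => (1 : ℝ)) a) := i3.add (ind_integrable h)
    have hn : ∀ a, 0 ≤ tn lam a * nuw h a := by
      intro a
      refine mul_nonneg (tn_nonneg lam a) ?_
      rw [nuw_eq]
      have h2 := gg_le hh a
      split_ifs <;> linarith
    refine (integral_mono_of_nonneg (Eventually.of_forall hn) i4
      (Eventually.of_forall hpt)).trans (le_of_eq ?_)
    rw [integral_add i3 (ind_integrable h), integral_sub i1 i2, integral_const_mul,
      integral_const_mul, tn_int hl, gg_int hh, ind_int hh]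
    ring

end Pool.Agent.W395.PF
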